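import Pool.Agent.H179R3.HF.Added

/-!
# `1/2`-flow-pairs and even subgraphs of arbitrary graphs (MP_e59a69_co)

Let `G` be any finite multigraph, `F` an even edge set, `K` an edge set containing all edges outside
`F`, and let `a i b i` (`i` in a finite type) be new edges whose addition to `K` makes all degrees
even.  For a vertex set `X` let `q` be the number of new edges with exactly one end in `X`.  If
`5 q ≤ |δ(X)| + 1` for all `X` with fewer than `2 q` edges of `F` in `δ(X)`, then `G` has a
`1/2`-flow-pair `(φ₂, φ₄)` with `φ₂ ≠ 0` exactly on `F`.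

Consequences: `oneEdge` (an exact criterion if one new edge suffices and `G` is bridgeless: `F` meets
every 3-edge-cut), which extends the criterion for 2-factors of cubic graphs with at most two odd
circuits to even subgraphs of arbitrary graphs.
-/

universe u v w

namespace Pool.Agent.Results.MP_e59a69_co.AddedEdges
open Pool.Agent.H160R2.HF Pool.Agent.H179R3.HF Finset

/-- The criterion for arbitrary graphs. -/
theorem result : ∀ (V : Type u) (E : Type v) (I : Type w) [Fintype V] [Fintype E] [Fintype I]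
    [DecidableEq V] [DecidableEq E] [DecidableEq I] (G : OrGraph V E) (F K : Finset E)
    (a b : I → V), (∀ v, Even (G.deg F v)) → (∀ g, g ∈ F ∨ g ∈ K) →
    (∀ w, Even (G.deg K w + (univ.filter (fun i => a i = w)).card +
      (univ.filter (fun i => b i = w)).card)) →
    (∀ X : Finset V,
      (G.cut X ∩ F).card < 2 * (univ.filter (fun i => ¬ (a i ∈ X ↔ b i ∈ X))).card →
      5 * (univ.filter (fun i => ¬ (a i ∈ X ↔ b i ∈ X))).card ≤ (G.cut X).card + 1) →
      ∃ φ₂ φ₄ : E → ℤ, G.IsHalfFlowPair φ₂ φ₄ ∧ ∀ e, φ₂ e ≠ 0 ↔ e ∈ F := by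
  intro V E I _ _ _ _ _ _ G F K a b hF hFK hK hq
  exact exists_pair_added G a b F K hF hFK hK hq

/-- Consequence: the exact criterion for one new edge `uv`. -/
theorem oneEdge : ∀ (V : Type u) (E : Type v) [Fintype V] [Fintype E] [DecidableEq V]
    [DecidableEq E] (G : OrGraph V E), G.Bridgeless → ∀ F K : Finset E,
    (∀ v, Even (G.deg F v)) → (∀ g, g ∈ F ∨ g ∈ K) → ∀ u v : V,
    (∀ w, Even (G.deg K w + (if u = w then 1 else 0) + (if v = w then 1 else 0))) →
    ((∃ φ₂ φ₄ : E → ℤ, G.IsHalfFlowPair φ₂ φ₄ ∧ ∀ e, φ₂ e ≠ 0 ↔ e ∈ F) ↔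
      ∀ X : Finset V, (G.cut X).card = 3 → (G.cut X ∩ F).Nonempty) := by
  intro V E _ _ _ _ G hB F K hF hFK u v hK
  exact pair_iff_gen G hB F K hF hFK u v hK

end Pool.Agent.Results.MP_e59a69_co.AddedEdges
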