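import Pool.Agent.H179R3.HF.Five

/-!
# `1/2`-flow-pairs and 2-factors into circuits of length five (MP_e59a69_co)

Let `G` be a cubic multigraph with a 2-factor `F` all of whose circuits have length five (as the
Petersen graph has).  Then `F` is the set of nonzero edges of the 2-flow of a `1/2`-flow-pair if and
only if the complement `M` of `F` is an edge cut, in other words: if the 5-regular multigraph `G / F`
is bipartite.

Necessity: five numbers from `2, -2, 3, -3` with sum zero are `2, 2, 2, -3, -3` or the negatives of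
these, so the circuits are of two kinds and every edge of `M` joins circuits of different kinds.
Sufficiency: by Hoffman's theorem one selects a 2-factor of the 5-regular bipartite multigraph; its
edges get the value 3 in one direction, the other edges of `M` get the value 2 in the opposite
direction, and the partial sums of `2, 2, 2, -3, -3` in any order span an interval of length at most
six, which leaves room for values of absolute value at most 3 on the five-circuits.
-/

universe u v

namespace Pool.Agent.Results.MP_e59a69_co.FiveCircuits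
open Finset Pool.Agent.H160R2.HF Pool.Agent.H179R3.HF

/-- For a cubic graph with a 2-factor `F` into circuits of length five and `M` the complement of
`F`: there is a `1/2`-flow-pair whose 2-flow is zero on `M` if and only if `M` is an edge cut, and in
this case there is one whose 2-flow is nonzero exactly on `F`. -/
theorem result : ∀ (ι : Type u) (M : Type v) [Fintype ι] [Fintype M] [DecidableEq ι]
    [DecidableEq M] (tM hM : M → ι × Fin 5),
    (∀ v, (univ.filter (fun e => tM e = v)).card + (univ.filter (fun e => hM e = v)).card = 1) →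
    ((∃ φ₂ φ₄ : (ι × Fin 5) ⊕ M → ℤ, (fiveGraph tM hM).IsHalfFlowPair φ₂ φ₄ ∧
        ∀ e : M, φ₂ (Sum.inr e) = 0) ↔
      ∃ s : ι → Bool, ∀ e, s (tM e).1 ≠ s (hM e).1) ∧
    ((∃ φ₂ φ₄ : (ι × Fin 5) ⊕ M → ℤ, (fiveGraph tM hM).IsHalfFlowPair φ₂ φ₄ ∧
        ∀ e, φ₂ e ≠ 0 ↔ ∃ p, e = Sum.inl p) ↔
      ∃ s : ι → Bool, ∀ e, s (tM e).1 ≠ s (hM e).1) := by
  intro ι M _ _ _ _ tM hM hone
  refine ⟨⟨?_, ?_⟩, ⟨?_, ?_⟩⟩
  · rintro ⟨φ₂, φ₄, hp, h0⟩
    exact five_neg tM hM hone φ₂ φ₄ hp h0
  · rintro ⟨s, hs⟩
    obtain ⟨φ₂, φ₄, hp, h⟩ := five_pos tM hM hone s hs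
    refine ⟨φ₂, φ₄, hp, fun e => ?_⟩
    by_contra hne
    obtain ⟨p, hp⟩ := (h (Sum.inr e)).1 hne
    simp at hp
  · rintro ⟨φ₂, φ₄, hp, h⟩
    refine five_neg tM hM hone φ₂ φ₄ hp fun e => ?_
    by_contra hne
    obtain ⟨p, hp⟩ := (h (Sum.inr e)).1 hne
    simp at hp
  · rintro ⟨s, hs⟩
    exact five_pos tM hM hone s hs

end Pool.Agent.Results.MP_e59a69_co.FiveCircuits
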