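import Pool.Agent.H179R3.HF.MinusVertex

/-!
# `1/2`-flow-pairs of graphs having a 4-flow with at most one zero (MP_e59a69_co)

Let `G` be a bridgeless multigraph which has a 4-flow with at most one edge of value zero (in other
words: `G` or `G - e`, for some edge `e`, has a nowhere-zero 4-flow).  Then `G` has a
`1/2`-flow-pair.  There is no condition on the degrees or on the connectivity of `G`.

Proof.  A 4-flow gives a `ℤ₂ × ℤ₂`-flow `f` with the same zeros.  If `f e = 0`, let `F` be the set
of edges of value `(1,0)` or `(0,1)` and orient the edges of value `(0,1)` or `(1,1)` as an Eulerian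
graph and `e` arbitrarily.  Hoffman's theorem gives a 4-flow with values `2, 3` on the oriented
edges outside `F` if and only if `F` meets every 3-edge-cut through `e`.  The 3-edge-cuts through
`e` on which `f` takes different values are nested, and they are recoloured one after the other,
from one end of `e` to the other, by transvections applied to `f` on one side of a cut; after this
no such cut has both its other edges of value `(1,1)`.

Corollary `minusVertex`: the same holds if `G - v` has a spanning closed trail for some vertex `v`,
in particular for hypohamiltonian graphs.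
-/

universe u v

namespace Pool.Agent.Results.MP_e59a69_co.NearlyFourFlow
open Pool.Agent.H160R2.HF Pool.Agent.H179R3.HF

/-- Bridgeless graphs having a 4-flow with at most one zero have a `1/2`-flow-pair. -/
theorem result : ∀ (V : Type u) (E : Type v) [Fintype V] [Fintype E] [DecidableEq V]
    [DecidableEq E] (G : OrGraph V E), G.Bridgeless →
    (∃ ψ : E → ℤ, G.IsKFlow 4 ψ ∧ ∀ e e' : E, ψ e = 0 → ψ e' = 0 → e = e') →
      ∃ φ₂ φ₄ : E → ℤ, G.IsHalfFlowPair φ₂ φ₄ := by
  intro V E _ _ _ _ G hB ⟨ψ, hψ, h0⟩
  exact nearly' G hB hψ h0

/-- Consequence: if `C` is an even edge set connecting all vertices other than `v` (a spanning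
closed trail of `G - v` or of `G`), then `G` has a `1/2`-flow-pair. -/
theorem minusVertex : ∀ (V : Type u) (E : Type v) [Fintype V] [Fintype E] [DecidableEq V]
    [DecidableEq E] (G : OrGraph V E), G.Bridgeless → ∀ (v : V) (C : Finset E),
    (∀ w, Even (G.deg C w)) → (∀ x y, x ≠ v → y ≠ v → (G.sub C).Reachable x y) →
      ∃ φ₂ φ₄ : E → ℤ, G.IsHalfFlowPair φ₂ φ₄ := by
  intro V E _ _ _ _ G hB v C hC hconn
  exact minus_vertex G hB v C hC hconn

end Pool.Agent.Results.MP_e59a69_co.NearlyFourFlow
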