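import Pool.Agent.H179R3.HF.Sums
import Pool.Agent.H179R3.HF.MinusVertex

/-!
# Sums with the Petersen graph preserve `1/2`-flow-pairs (MP_e59a69_co)

If a finite multigraph `G` has a `1/2`-flow-pair, then so has every graph obtained from `G` by a
sequence of 2-, 3- and 4-sums with the Petersen graph `P`:

* replace an edge by `P` minus an edge;
* replace a vertex of degree three by `P` minus a vertex;
* replace two edges by `P` minus two adjacent vertices (the dot product of `G` and `P`);
* replace an edge both of whose ends have degree three by `P` minus two disjoint edges, at distance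
  one or two (the dot product of `P` and `G`).

Proof.  Every choice of admissible values on the two, three or four edges of the cut which is
possible on the small side extends to the Petersen fragment; the kernel checks tables of solutions
(18, 108, 324, 728 and 728 cases).
-/

universe u v

namespace Pool.Agent.Results.MP_e59a69_co.PetersenSums
open Pool.Agent.H160R2.HF Pool.Agent.H179R3.HF

/-- Graphs with a `1/2`-flow-pair are closed under sums with the Petersen graph. -/
theorem result : ∀ (V V' : Type u) (E E' : Type v) [Fintype V] [Fintype E] [DecidableEq V]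
    [Fintype V'] [Fintype E'] [DecidableEq V'] (G : OrGraph V E) (K : OrGraph V' E'),
    PetersenSum G K → (∃ φ₂ φ₄ : E → ℤ, G.IsHalfFlowPair φ₂ φ₄) →
      ∃ φ₂ φ₄ : E' → ℤ, K.IsHalfFlowPair φ₂ φ₄ := by
  intro V V' E E' _ _ _ _ _ _ G K h hG
  exact (hasPair_iff K).1 (hasPair_of_petersenSum h ((hasPair_iff G).2 hG))

/-- Consequence: iterated Petersen sums of bridgeless graphs having a 4-flow with at most one zero
have `1/2`-flow-pairs. -/
theorem iteratedSums : ∀ (V V' : Type u) (E E' : Type v) [Fintype V] [Fintype E] [DecidableEq V]
    [DecidableEq E] [Fintype V'] [Fintype E'] [DecidableEq V'] (G : OrGraph V E)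
    (K : OrGraph V' E'), PetersenSum G K → G.Bridgeless →
    (∃ ψ : E → ℤ, G.IsKFlow 4 ψ ∧ ∀ e e' : E, ψ e = 0 → ψ e' = 0 → e = e') →
      ∃ φ₂ φ₄ : E' → ℤ, K.IsHalfFlowPair φ₂ φ₄ := by
  intro V V' E E' _ _ _ _ _ _ _ G K h hB ⟨ψ, hψ, h0⟩
  exact result V V' E E' G K h (nearly' G hB hψ h0)

end Pool.Agent.Results.MP_e59a69_co.PetersenSums
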